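import Mathlib
import Pool.Agent.H789R5.RF.Rank
import Pool.Agent.H789R5.RF.TD

/-!
# Implied nonedges whose circuit has treewidth at most `d + 1` lie in a `K_{d+2}` of the closure

Let `f = uv` be an implied nonedge of a graph `G` in the generic `d`-dimensional rigidity matroid
and `G₀` a subgraph of `G` which already implies `f` (for example the fundamental circuit of `f`
without `f`, when `G` is independent). If `G₀ + f` has treewidth at most `d + 1`, or is in the
larger class `Elim d`, then `f` lies in a complete graph with `d + 2` vertices in the closure of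
`G`. For `d = 3` these are the `K_5` of the problem.
-/

set_option autoImplicit false

namespace Pool.Agent.Results.MP_071ace_co.TreewidthFour

open Pool.Agent.H283R2.DR Pool.Agent.H789R5

/-- The closure `CL(G)` of `G` in the generic `d`-dimensional rigidity matroid: `x` and `y` are
adjacent in it when adding the edge `xy` to `G` does not change the generic rank. -/
noncomputable def CL {V : Type} [Fintype V] (d : ℕ) (G : SimpleGraph V) : SimpleGraph V where
  Adj x y := x ≠ y ∧ genRank d (G ⊔ SimpleGraph.edge x y) = genRank d G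
  symm := ⟨fun x y h => ⟨h.1.symm, by rw [SimpleGraph.edge_comm]; exact h.2⟩⟩
  loopless := ⟨fun _ h => h.1 rfl⟩

theorem mot_le_of_mo_eq {V : Type} [Fintype V] {d : ℕ} {p : V → Fin d → ℝ} {G G' : SimpleGraph V}
    (h : G ≤ G') (he : mo G p ≤ mo G' p) : Mot G p = Mot G' p :=
  (Submodule.eq_of_le_of_finrank_le (mot_anti h p) he).symm

theorem result (d : ℕ) (V : Type) [Fintype V] (G G₀ : SimpleGraph V) (u v : V)
    (h₀ : G₀ ≤ G) (hf : ¬ G.Adj u v) (himp : (CL d G₀).Adj u v) :
    (TreewidthLE (d + 1) (G₀ ⊔ SimpleGraph.edge u v) → Elim d (G₀ ⊔ SimpleGraph.edge u v)) ∧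
    (Elim d (G₀ ⊔ SimpleGraph.edge u v) →
      ∃ A : Finset V, A.card = d + 2 ∧ u ∈ A ∧ v ∈ A ∧
        ∀ x ∈ A, ∀ y ∈ A, x ≠ y → (CL d G).Adj x y) := by
  classical
  refine ⟨elim_of_treewidth, fun hE => ?_⟩
  obtain ⟨huv, himp⟩ := himp
  obtain ⟨p, hp⟩ := exists_mg V d
  set G' := G₀ ⊔ SimpleGraph.edge u v with hG'
  have r₀ := genRank_add hp G₀
  have r' := genRank_add hp G'
  have hmo : mo G' p = mo G₀ p := by omega
  obtain ⟨L, hL, hLeq⟩ := lower hp hE
  have hf₀ : ¬ G₀.Adj u v := fun h => hf (h₀ h)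
  -- some member of `L` contains `u` and `v`
  have hA : ∃ A ∈ L, u ∈ A ∧ v ∈ A := by
    by_contra hno
    push Not at hno
    have hup := upper hp G₀ hL
    have hnot : s(u, v) ∉ (cover G₀ L).edgeSet := by
      rintro ⟨-, h | ⟨A, hA, h1, h2⟩⟩
      · exact hf₀ h
      · exact hno A hA h1 h2
    have hins : (cover G' L).edgeSet = insert s(u, v) (cover G₀ L).edgeSet := by
      ext e
      induction e using Sym2.ind with
      | _ a b =>
        rw [Set.mem_insert_iff, SimpleGraph.mem_edgeSet, SimpleGraph.mem_edgeSet, Sym2.eq_iff]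
        constructor
        · rintro ⟨hne, h | h⟩
          · rw [hG', SimpleGraph.sup_adj, SimpleGraph.edge_adj] at h
            rcases h with h | h
            · exact Or.inr ⟨hne, Or.inl h⟩
            · refine Or.inl ?_
              have := h.1
              tauto
          · exact Or.inr ⟨hne, Or.inr h⟩
        · rintro (h | ⟨hne, h⟩)
          · rcases h with ⟨rfl, rfl⟩ | ⟨rfl, rfl⟩
            · exact ⟨huv, Or.inl (Or.inr (by rw [SimpleGraph.edge_adj]; exact ⟨by tauto, huv⟩))⟩
            · exact ⟨huv.symm,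
                Or.inl (Or.inr (by rw [SimpleGraph.edge_adj]; exact ⟨by tauto, huv.symm⟩))⟩
          · exact ⟨hne, h.imp (fun h => Or.inl h) id⟩
    have hcard : (cover G' L).edgeSet.ncard = (cover G₀ L).edgeSet.ncard + 1 := by
      rw [hins, Set.ncard_insert_of_notMem hnot (Set.toFinite _)]
    omega
  obtain ⟨A, hAL, huA, hvA⟩ := hA
  -- the whole cover is in the closure
  have hcc : cover (cover G' L) L = cover G' L := by
    ext a b
    constructor
    · rintro ⟨hne, h | h⟩
      · exact h
      · exact ⟨hne, Or.inr h⟩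
    · rintro h
      exact ⟨h.1, Or.inl h⟩
  have hupC := upper hp (cover G' L) hL
  rw [hcc] at hupC
  have hG₀C : G₀ ≤ cover G' L := fun a b h => ⟨h.ne, Or.inl (Or.inl h)⟩
  have hmot : Mot G₀ p = Mot (cover G' L) p := mot_le_of_mo_eq hG₀C (by omega)
  have hAcard : A.card = d + 2 := by
    clear hLeq hcc hupC hG₀C hmot
    induction L with
    | nil => simp at hAL
    | cons B L ih =>
      rcases List.mem_cons.1 hAL with rfl | h
      · exact hL.2.1
      · exact ih hL.1 h
  refine ⟨A, hAcard, huA, hvA, fun x hx y hy hxy => ⟨hxy, ?_⟩⟩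
  have rG := genRank_add hp G
  have rG' := genRank_add hp (G ⊔ SimpleGraph.edge x y)
  have hmG : mo G p ≤ mo (G ⊔ SimpleGraph.edge x y) p := by
    apply Submodule.finrank_mono
    intro q hq
    have hq₀ : q ∈ Mot (cover G' L) p := by
      rw [← hmot]
      exact mot_anti h₀ p hq
    rw [mem_mot] at hq hq₀ ⊢
    intro a b hab
    rw [SimpleGraph.sup_adj, SimpleGraph.edge_adj] at hab
    rcases hab with h | ⟨h, hne⟩
    · exact hq a b h
    · refine hq₀ a b ⟨hne, Or.inr ⟨A, hAL, ?_, ?_⟩⟩
      · rcases h with ⟨h1, h2⟩ | ⟨h1, h2⟩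
        · exact h1 ▸ hx
        · exact h1 ▸ hy
      · rcases h with ⟨h1, h2⟩ | ⟨h1, h2⟩
        · exact h2 ▸ hy
        · exact h2 ▸ hx
  have hmG' : mo (G ⊔ SimpleGraph.edge x y) p ≤ mo G p := mo_anti le_sup_left p
  omega

end Pool.Agent.Results.MP_071ace_co.TreewidthFour
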